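import Mathlib

/-!
# A nontrivial identity of the bipartition lattices

`Bip V` is the lattice of the bipartitions of `V`: the binary relations on `V` which are transitive
and have a transitive complement, ordered by inclusion. The join is the transitive closure of the
union, and the orthocomplement is the complement. The theorem `result` shows that all `Bip V` with
`V` finite satisfy

  `(a ∨ d) ∧ (b ∨ c) = d ∨ ((b ∨ c) ∧ (c ∨ ((a ∨ b) ∧ (a ∨ d))))` for `c ≤ d ≤ b ∨ c`,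

which becomes an identity if `c` and `d` are replaced by `c ∧ d` and `d ∧ (b ∨ (c ∧ d))`. The
identity fails in a lattice `K` with eleven elements, and in the ortholattice `Glue K`, which consists
of `K`, the dual of `K`, a new bottom and a new top. So both questions have the answer yes.

Idea of the proof. For a bipartition `z` let `C(z)` be the family of all `D` with `D × Dᶜ ⊆ z`
(`Cut z D`) and `K(z)` the family of all `W` with `(Wᶜ × W) ∩ z = ∅` (`Ker z W`). Then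
`C(x ∧ y) = C(x) ∩ C(y)` and `K(x ∨ y) = K(x) ∩ K(y)`, the members of `C(z)` are comparable with
those of `K(z)`, and if two members of `C(z)` are incomparable, then all sets between their
intersection and their union belong to `C(z)`. By a substitution it suffices to show (`reduced`) that
`c ≤ d < e` is impossible if `a = (a ∨ b) ∧ (a ∨ d)`, `c = (a ∨ c) ∧ (b ∨ c)`, `d ≤ b ∨ c` and
`e = (a ∨ d) ∧ (b ∨ c)`. If two elements of a full block of `e` are separated by `d`, then some `W`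
in `K(d)` lies strictly inside the full blocks of `α = a ∨ d` and `β = b ∨ c`, it is crossed by some
`A` in `C(a)`, and the members of `C(b)` and `C(c)` which generate the block of `β` lead to a member
of `C(c)` which crosses `W` (`typeP`). Otherwise some `D` in `C(e)` splits an empty block of `d`; if
every vertex has a twin, then the full blocks of `α` and `β` at `D` have only `D` in common, and
a member of `K(a) ∩ K(b) ∩ K(c)` cuts through the block of `α` (`typeM`).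
-/

namespace Pool.Agent.Results.MP_a65550_al.BipIdentities

/-- A bipartition of `V`: a binary relation which is transitive and whose complement is transitive. -/
@[ext]
structure Bip (V : Type*) where
  /-- the relation -/
  rel : V → V → Prop
  trans : ∀ i j k, rel i j → rel j k → rel i k
  compl_trans : ∀ i j k, ¬ rel i j → ¬ rel j k → ¬ rel i k

variable {V : Type*}

namespace Bip

theorem cotrans (z : Bip V) {i k : V} (h : z.rel i k) (j : V) : z.rel i j ∨ z.rel j k := by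
  by_contra hn
  push Not at hn
  exact z.compl_trans i j k hn.1 hn.2 h

/-- Bipartitions are ordered by inclusion. -/
instance : PartialOrder (Bip V) where
  le x y := ∀ i j, x.rel i j → y.rel i j
  le_refl _ _ _ h := h
  le_trans _ _ _ h h' i j hx := h' i j (h i j hx)
  le_antisymm x y h h' := by
    ext i j
    exact ⟨h i j, h' i j⟩

/-- The join of two bipartitions: the transitive closure of the union. -/
def join (x y : Bip V) : Bip V where
  rel := Relation.TransGen fun i j => x.rel i j ∨ y.rel i j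
  trans _ _ _ h h' := Relation.TransGen.trans h h'
  compl_trans := by
    intro i j k h1 h2 h
    induction h using Relation.TransGen.head_induction_on with
    | @single i hs =>
      rcases hs with hs | hs
      · rcases x.cotrans hs j with h3 | h3
        · exact h1 (.single (.inl h3))
        · exact h2 (.single (.inl h3))
      · rcases y.cotrans hs j with h3 | h3
        · exact h1 (.single (.inr h3))
        · exact h2 (.single (.inr h3))
    | @head i m hs hm ih =>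
      rcases hs with hs | hs
      · rcases x.cotrans hs j with h3 | h3
        · exact h1 (.single (.inl h3))
        · exact h2 (.head (.inl h3) hm)
      · rcases y.cotrans hs j with h3 | h3
        · exact h1 (.single (.inr h3))
        · exact h2 (.head (.inr h3) hm)

/-- The orthocomplement of a bipartition: its complement. -/
def perp (x : Bip V) : Bip V where
  rel i j := ¬ x.rel i j
  trans := x.compl_trans
  compl_trans i j k h h' := by
    rw [not_not] at *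
    exact x.trans i j k h h'

/-- The lattice of bipartitions: the join is the transitive closure of the union, and the meet is
the interior of the intersection, that is, the complement of the transitive closure of the union of
the complements. -/
instance : Lattice (Bip V) where
  sup := join
  inf x y := (x.perp.join y.perp).perp
  le_sup_left _ _ _ _ h := .single (.inl h)
  le_sup_right _ _ _ _ h := .single (.inr h)
  sup_le x y z h h' i j hij := by
    induction hij with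
    | single hs => exact hs.elim (h _ _) (h' _ _)
    | tail _ hs ih => exact z.trans _ _ _ ih (hs.elim (h _ _) (h' _ _))
  inf_le_left x y i j h := by
    by_contra hn
    exact h (.single (.inl hn))
  inf_le_right x y i j h := by
    by_contra hn
    exact h (.single (.inr hn))
  le_inf x y z h h' i j hij hn := by
    have key : ∀ i j, Relation.TransGen (fun i j => (perp y).rel i j ∨ (perp z).rel i j) i j →
        ¬ x.rel i j := by
      intro i j hn
      induction hn with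
      | single hs => exact fun hx => hs.elim (fun hs => hs (h _ _ hx)) (fun hs => hs (h' _ _ hx))
      | tail _ hs ih =>
        exact x.compl_trans _ _ _ ih
          (fun hx => hs.elim (fun hs => hs (h _ _ hx)) (fun hs => hs (h' _ _ hx)))
    exact key i j hn hij

end Bip

section Sets

/-- `D × Dᶜ` is contained in `z`. -/
def Cut (z : Bip V) (D : Set V) : Prop := ∀ x ∈ D, ∀ y, y ∉ D → z.rel x y

/-- `Wᶜ × W` is disjoint from `z`. -/
def Ker (z : Bip V) (W : Set V) : Prop := ∀ x, x ∉ W → ∀ y ∈ W, ¬ z.rel x y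

theorem Cut.mono {z w : Bip V} (h : z ≤ w) {D : Set V} (hD : Cut z D) : Cut w D :=
  fun x hx y hy => h _ _ (hD x hx y hy)

theorem Ker.anti {z w : Bip V} (h : z ≤ w) {W : Set V} (hW : Ker w W) : Ker z W :=
  fun x hx y hy hz => hW x hx y hy (h _ _ hz)

theorem Cut.ker {z : Bip V} {D W : Set V} (hD : Cut z D) (hW : Ker z W) : D ⊆ W ∨ W ⊆ D := by
  by_contra h
  push Not at h
  obtain ⟨⟨x, hx, hx'⟩, ⟨y, hy, hy'⟩⟩ := And.intro (Set.not_subset.1 h.1) (Set.not_subset.1 h.2)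
  exact hW x hx' y hy (hD x hx y hy')

theorem Cut.between {z : Bip V} {X Y M : Set V} (hX : Cut z X) (hY : Cut z Y) {u v : V}
    (hu : u ∈ X) (hu' : u ∉ Y) (hv : v ∈ Y) (hv' : v ∉ X) (h1 : ∀ w ∈ X, w ∈ Y → w ∈ M)
    (h2 : ∀ w ∈ M, w ∈ X ∨ w ∈ Y) : Cut z M := by
  intro x hx y hy
  by_cases hyX : y ∈ X
  · have hyY : y ∉ Y := fun h => hy (h1 y hyX h)
    by_cases hxY : x ∈ Y
    · exact hY x hxY y hyY
    · have hxX : x ∈ X := (h2 x hx).resolve_right hxY
      exact z.trans _ _ _ (hX x hxX v hv') (hY v hv y hyY)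
  · by_cases hxX : x ∈ X
    · exact hX x hxX y hyX
    · have hxY : x ∈ Y := (h2 x hx).resolve_left hxX
      by_cases hyY : y ∈ Y
      · exact z.trans _ _ _ (hY x hxY u hu') (hX u hu y hyX)
      · exact hY x hxY y hyY

theorem Cut.sUnion {z : Bip V} {F : Set (Set V)} (h : ∀ X ∈ F, Cut z X) : Cut z (⋃₀ F) := by
  rintro x ⟨X, hX, hx⟩ y hy
  exact h X hX x hx y fun hy' => hy ⟨X, hX, hy'⟩

theorem Cut.sInter {z : Bip V} {F : Set (Set V)} (h : ∀ X ∈ F, Cut z X) : Cut z (⋂₀ F) := by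
  intro x hx y hy
  rw [Set.mem_sInter] at hy
  push Not at hy
  obtain ⟨X, hX, hyX⟩ := hy
  exact h X hX x (hx X hX) y hyX

theorem Cut.union {z : Bip V} {X Y : Set V} (hX : Cut z X) (hY : Cut z Y) : Cut z (X ∪ Y) := by
  rintro x (hx | hx) y hy
  · exact hX x hx y fun h => hy (.inl h)
  · exact hY x hx y fun h => hy (.inr h)

theorem Cut.inter {z : Bip V} {X Y : Set V} (hX : Cut z X) (hY : Cut z Y) : Cut z (X ∩ Y) := by
  rintro x hx y hy
  by_cases h : y ∈ X
  · exact hY x hx.2 y fun h' => hy ⟨h, h'⟩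
  · exact hX x hx.1 y h

theorem Ker.union {z : Bip V} {X Y : Set V} (hX : Ker z X) (hY : Ker z Y) : Ker z (X ∪ Y) := by
  rintro x hx y (hy | hy)
  · exact hX x (fun h => hx (.inl h)) y hy
  · exact hY x (fun h => hx (.inr h)) y hy

theorem Ker.inter {z : Bip V} {X Y : Set V} (hX : Ker z X) (hY : Ker z Y) : Ker z (X ∩ Y) := by
  rintro x hx y hy
  by_cases h : x ∈ X
  · exact hY x (fun h' => hx ⟨h, h'⟩) y hy.2
  · exact hX x h y hy.1

theorem Cut.inf {z w : Bip V} {D : Set V} (hz : Cut z D) (hw : Cut w D) : Cut (z ⊓ w) D := by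
  intro x hx y hy hn
  have key : ∀ y, Relation.TransGen (fun i j => (z.perp).rel i j ∨ (w.perp).rel i j) x y →
      y ∈ D := by
    intro y h
    induction h with
    | single hs =>
      by_contra hy
      exact hs.elim (fun hs => hs (hz _ hx _ hy)) (fun hs => hs (hw _ hx _ hy))
    | tail _ hs ih =>
      by_contra hy
      exact hs.elim (fun hs => hs (hz _ ih _ hy)) (fun hs => hs (hw _ ih _ hy))
  exact hy (key y hn)

/-- A path into `Z` has a step into `Z`. -/
theorem exists_step {r : V → V → Prop} {Z : Set V} {u v : V}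
    (h : Relation.TransGen r u v) (hu : u ∉ Z) (hv : v ∈ Z) :
    ∃ u' v', r u' v' ∧ u' ∉ Z ∧ v' ∈ Z ∧ (u' = u ∨ Relation.TransGen r u u') ∧
      (v' = v ∨ Relation.TransGen r v' v) := by
  induction h with
  | @single v hs => exact ⟨u, v, hs, hu, hv, .inl rfl, .inl rfl⟩
  | @tail m v hm hs ih =>
    by_cases hmZ : m ∈ Z
    · obtain ⟨u', v', h1, h2, h3, h4, h5⟩ := ih hmZ
      refine ⟨u', v', h1, h2, h3, h4, .inr ?_⟩
      rcases h5 with rfl | h5
      · exact .single hs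
      · exact h5.tail hs
    · exact ⟨m, v, hs, hmZ, hv, .inr hm, .inl rfl⟩

theorem Ker.sup {z w : Bip V} {W : Set V} (hz : Ker z W) (hw : Ker w W) : Ker (z ⊔ w) W := by
  intro x hx y hy h
  obtain ⟨u', v', h1, h2, h3, -, -⟩ := exists_step h hx hy
  exact h1.elim (hz _ h2 _ h3) (hw _ h2 _ h3)

theorem exists_cut {z : Bip V} {x y : V} (h : z.rel x y) (hne : x ≠ y) :
    ∃ D, Cut z D ∧ x ∈ D ∧ y ∉ D := by
  refine ⟨{w | w = x ∨ ¬ z.rel x w}, ?_, .inl rfl, ?_⟩
  · rintro u hu v hv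
    simp only [Set.mem_ofPred_eq, not_or, not_not] at hv
    rcases hu with rfl | hu
    · exact hv.2
    · exact (z.cotrans hv.2 u).resolve_left hu
  · simp only [Set.mem_ofPred_eq, not_or, not_not]
    exact ⟨hne.symm, h⟩

theorem exists_ker {z : Bip V} {x y : V} (h : ¬ z.rel x y) (hne : x ≠ y) :
    ∃ W, Ker z W ∧ y ∈ W ∧ x ∉ W := by
  refine ⟨{w | w ≠ x ∧ ¬ z.rel x w}, ?_, ⟨hne.symm, h⟩, fun h => h.1 rfl⟩
  intro u hu v hv huv
  simp only [Set.mem_ofPred_eq, not_and, not_not] at hu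
  by_cases hux : u = x
  · exact hv.2 (hux ▸ huv)
  · exact hv.2 (z.trans _ _ _ (hu hux) huv)

theorem exists_cut_of_not_ker {z : Bip V} {W : Set V} (h : ¬ Ker z W) :
    ∃ A, Cut z A ∧ (∃ u ∈ A, u ∉ W) ∧ ∃ w ∈ W, w ∉ A := by
  unfold Ker at h
  push Not at h
  obtain ⟨x, hx, y, hy, hxy⟩ := h
  obtain ⟨D, hD, h1, h2⟩ := exists_cut hxy (fun h => hx (h ▸ hy))
  exact ⟨D, hD, ⟨x, h1, hx⟩, ⟨y, hy, h2⟩⟩

theorem exists_ker_of_not_cut {z : Bip V} {D : Set V} (h : ¬ Cut z D) :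
    ∃ U, Ker z U ∧ (∃ u ∈ U, u ∉ D) ∧ ∃ w ∈ D, w ∉ U := by
  unfold Cut at h
  push Not at h
  obtain ⟨x, hx, y, hy, hxy⟩ := h
  obtain ⟨W, hW, h1, h2⟩ := exists_ker hxy (fun h => hy (h ▸ hx))
  exact ⟨W, hW, ⟨y, h1, hy⟩, ⟨x, hx, h2⟩⟩

/-- The elements before the block of `g`. -/
def Lo (z : Bip V) (g : V) : Set V := {v | ¬ z.rel g v}

/-- The elements up to the block of `g`. -/
def Hi (z : Bip V) (g : V) : Set V := {v | z.rel v g}

theorem ker_Lo (z : Bip V) (g : V) : Ker z (Lo z g) := by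
  intro u hu v hv huv
  simp only [Lo, Set.mem_ofPred_eq, not_not] at hu
  exact hv (z.trans _ _ _ hu huv)

theorem ker_Hi (z : Bip V) (g : V) : Ker z (Hi z g) :=
  fun _ hu _ hv huv => hu (z.trans _ _ _ huv hv)

theorem Lo_subset_Hi {z : Bip V} {g : V} (h : z.rel g g) : Lo z g ⊆ Hi z g :=
  fun v hv => (z.cotrans h v).resolve_left hv

theorem cut_cell {z : Bip V} {g : V} {X : Set V} (h1 : Lo z g ⊆ X) (h2 : X ⊆ Hi z g) :
    Cut z X := by
  intro u hu v hv
  have h3 : z.rel g v := by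
    by_contra h
    exact hv (h1 h)
  exact z.trans _ _ _ (h2 hu) h3

/-- A full block of a join is connected by the cuts of the two parts. -/
theorem cross {x y : Bip V} {g : V} {Z : Set V} {u v : V}
    (hu1 : (x ⊔ y).rel u g) (hu2 : (x ⊔ y).rel g u) (hv1 : (x ⊔ y).rel v g)
    (hv2 : (x ⊔ y).rel g v) (hu : u ∉ Z) (hv : v ∈ Z) :
    ∃ Y, (Cut x Y ∨ Cut y Y) ∧ Lo (x ⊔ y) g ⊆ Y ∧ Y ⊆ Hi (x ⊔ y) g ∧ (∃ u' ∈ Y, u' ∉ Z) ∧
      ∃ v' ∈ Z, v' ∉ Y := by
  obtain ⟨u', v', h1, h2, h3, h4, h5⟩ := exists_step ((x ⊔ y).trans _ _ _ hu1 hv2) hu hv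
  have hne : u' ≠ v' := fun h => h2 (h ▸ h3)
  have h6 : (x ⊔ y).rel g u' := by
    rcases h4 with rfl | h4
    · exact hu2
    · exact (x ⊔ y).trans _ _ _ hu2 h4
  have h7 : (x ⊔ y).rel v' g := by
    rcases h5 with rfl | h5
    · exact hv1
    · exact (x ⊔ y).trans _ _ _ h5 hv1
  have key : ∀ Y, Cut (x ⊔ y) Y → u' ∈ Y → v' ∉ Y → Lo (x ⊔ y) g ⊆ Y ∧ Y ⊆ Hi (x ⊔ y) g := by
    intro Y hY hu' hv'
    refine ⟨(hY.ker (ker_Lo _ g)).resolve_left fun h => h hu' h6,
      (hY.ker (ker_Hi _ g)).resolve_right fun h => hv' (h h7)⟩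
  rcases h1 with h1 | h1
  · obtain ⟨Y, hY, h8, h9⟩ := exists_cut h1 hne
    obtain ⟨h10, h11⟩ := key Y (hY.mono le_sup_left) h8 h9
    exact ⟨Y, .inl hY, h10, h11, ⟨u', h8, h2⟩, ⟨v', h3, h9⟩⟩
  · obtain ⟨Y, hY, h8, h9⟩ := exists_cut h1 hne
    obtain ⟨h10, h11⟩ := key Y (hY.mono le_sup_right) h8 h9
    exact ⟨Y, .inr hY, h10, h11, ⟨u', h8, h2⟩, ⟨v', h3, h9⟩⟩

end Sets

section TypeP

/-- First case: the cut set `W` lies strictly inside full blocks of `α` and of `b ⊔ c`. -/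
theorem typeP {a b c α : Bip V} (haα : a ≤ α)
    (hs : ∀ X, Cut (a ⊔ b) X → Cut α X → Cut a X)
    (hq : ∀ X, Cut (a ⊔ c) X → Cut (b ⊔ c) X → Cut c X) {x y : V} {W : Set V}
    (hWc : Ker c W) (hWa : ¬ Ker a W) (hxα : α.rel x x) (hxβ : (b ⊔ c).rel x x)
    (hM : ∀ v ∈ W, α.rel v x ∧ (b ⊔ c).rel v x) (hL : ∀ v, v ∉ W → α.rel x v ∧ (b ⊔ c).rel x v)
    (hxW : x ∉ W) (hyW : y ∈ W) (hyα : α.rel x y) (hyβ : (b ⊔ c).rel x y) : False := by
  set β := b ⊔ c with hβ
  have hLα : ∀ v ∈ Lo α x, v ∈ W := fun v hv => by_contra fun h => hv (hL v h).1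
  have hLβ : ∀ v ∈ Lo β x, v ∈ W := fun v hv => by_contra fun h => hv (hL v h).2
  have hMα : ∀ v ∈ W, v ∈ Hi α x := fun v hv => (hM v hv).1
  have hMβ : ∀ v ∈ W, v ∈ Hi β x := fun v hv => (hM v hv).2
  -- cuts of `a` which cross `W` lie in the cell of `α`
  have hin : ∀ A, Cut a A → (∃ u ∈ A, u ∉ W) → (∃ w ∈ W, w ∉ A) →
      Lo α x ⊆ A ∧ A ⊆ Hi α x := by
    rintro A hA ⟨u, hu, hu'⟩ ⟨w, hw, hw'⟩
    refine ⟨((hA.mono haα).ker (ker_Lo α x)).resolve_left fun h => hu' (hLα u (h hu)),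
      ((hA.mono haα).ker (ker_Hi α x)).resolve_right fun h => hw' (h (hMα w hw))⟩
  have core : ∀ X, (Cut (a ⊔ b) X ∨ Cut (a ⊔ c) X) → Lo α x ⊆ X → Lo β x ⊆ X → X ⊆ Hi α x →
      X ⊆ Hi β x → (∃ p ∈ X, p ∉ W) → (∃ q ∈ W, q ∉ X) → False := by
    rintro X hX h1 h2 h3 h4 ⟨p, hp, hp'⟩ ⟨q, hq', hq''⟩
    have h5 : Cut α X := cut_cell h1 h3
    have h6 : Cut β X := cut_cell h2 h4
    have h7 : Cut (a ⊔ c) X := by
      rcases hX with hX | hX
      · exact (hs X hX h5).mono le_sup_left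
      · exact hX
    rcases (hq X h7 h6).ker hWc with h | h
    · exact hp' (h hp)
    · exact hq'' (h hq')
  have dich : ∀ A Y, Cut a A → Lo α x ⊆ A → A ⊆ Hi α x → (Cut b Y ∨ Cut c Y) → Lo β x ⊆ Y →
      Y ⊆ Hi β x → (∃ u ∈ A, u ∉ Y) → (∃ v ∈ Y, v ∉ A) → ∀ q ∈ W, q ∉ Lo α x → q ∉ Lo β x →
      ¬ (q ∈ A ∧ q ∈ Y) → ∀ p, p ∉ W → p ∈ Hi α x → p ∈ Hi β x → (p ∈ A ∨ p ∈ Y) → False := by
    rintro A Y hA hA1 hA2 hY hY1 hY2 ⟨u, hu, hu'⟩ ⟨v, hv, hv'⟩ q hqW hq1 hq2 hq3 p hpW hp1 hp2 hp3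
    have hX : ∀ z : Bip V, Cut z A → Cut z Y → Cut z ((A ∩ Y) ∪ (Lo α x ∪ Lo β x) ∪ {p}) := by
      intro z h1 h2
      refine h1.between h2 hu hu' hv hv' (fun w h3 h4 => .inl (.inl ⟨h3, h4⟩)) ?_
      rintro w ((h3 | h3 | h3) | h3)
      · exact .inl h3.1
      · exact .inl (hA1 h3)
      · exact .inr (hY1 h3)
      · rw [Set.mem_singleton_iff] at h3
        rw [h3]
        exact hp3
    refine core ((A ∩ Y) ∪ (Lo α x ∪ Lo β x) ∪ {p}) ?_ (fun w h => .inl (.inr (.inl h)))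
      (fun w h => .inl (.inr (.inr h))) ?_ ?_ ⟨p, .inr rfl, hpW⟩ ⟨q, hqW, ?_⟩
    · rcases hY with hY | hY
      · exact .inl (hX _ (hA.mono le_sup_left) (hY.mono le_sup_right))
      · exact .inr (hX _ (hA.mono le_sup_left) (hY.mono le_sup_right))
    · rintro w ((h3 | h3 | h3) | h3)
      · exact hA2 h3.1
      · exact hMα w (hLα w h3)
      · exact hMα w (hLβ w h3)
      · rw [Set.mem_singleton_iff] at h3
        rw [h3]
        exact hp1
    · rintro w ((h3 | h3 | h3) | h3)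
      · exact hY2 h3.2
      · exact hMβ w (hLα w h3)
      · exact hMβ w (hLβ w h3)
      · rw [Set.mem_singleton_iff] at h3
        rw [h3]
        exact hp2
    · rintro ((h3 | h3 | h3) | h3)
      · exact hq3 h3
      · exact hq1 h3
      · exact hq2 h3
      · rw [Set.mem_singleton_iff] at h3
        exact hpW (h3 ▸ hqW)
  have hxy : β.rel y x := (hM y hyW).2
  -- cuts of `b` or `c` inside the cell of `β`
  have hFa : ∀ g, β.rel g x → β.rel x g → ∃ Y, (Cut b Y ∨ Cut c Y) ∧ Lo β x ⊆ Y ∧ Y ⊆ Hi β x ∧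
      g ∈ Y := by
    intro g hg1 hg2
    have hne : ∃ g', g' ≠ g ∧ β.rel g' x ∧ β.rel x g' := by
      by_cases h : g = x
      · exact ⟨y, fun h' => hxW (by rw [← h, ← h']; exact hyW), hxy, hyβ⟩
      · exact ⟨x, fun h' => h h'.symm, hxβ, hxβ⟩
    obtain ⟨g', h1, h2, h3⟩ := hne
    obtain ⟨Y, h4, h5, h6, ⟨u, h7, h8⟩, -⟩ := cross (Z := {g}ᶜ) hg1 hg2 h2 h3
      (fun h => h rfl) h1
    have h9 : u = g := not_not.1 h8
    exact ⟨Y, h4, h5, h6, h9 ▸ h7⟩
  have hFb : ∀ g, β.rel g x → β.rel x g → ∃ Y, (Cut b Y ∨ Cut c Y) ∧ Lo β x ⊆ Y ∧ Y ⊆ Hi β x ∧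
      g ∉ Y := by
    intro g hg1 hg2
    have hne : ∃ g', g' ≠ g ∧ β.rel g' x ∧ β.rel x g' := by
      by_cases h : g = x
      · exact ⟨y, fun h' => hxW (by rw [← h, ← h']; exact hyW), hxy, hyβ⟩
      · exact ⟨x, fun h' => h h'.symm, hxβ, hxβ⟩
    obtain ⟨g', h1, h2, h3⟩ := hne
    obtain ⟨Y, h4, h5, h6, -, v, h7, h8⟩ := cross (Z := {g}) h2 h3 hg1 hg2 h1 rfl
    have h9 : v = g := h7
    exact ⟨Y, h4, h5, h6, h9 ▸ h8⟩
  have hyL1 : y ∉ Lo α x := fun h => h hyα
  have hyL2 : y ∉ Lo β x := fun h => h hyβ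
  obtain ⟨A, hA, hA1, hA2⟩ := exists_cut_of_not_ker hWa
  obtain ⟨hA3, hA4⟩ := hin A hA hA1 hA2
  obtain ⟨Y₁, hY1, hY1L, hY1H, hxY1⟩ := hFa x hxβ hxβ
  obtain ⟨Y₂, hY2, hY2L, hY2H, hyY2⟩ := hFb y hxy hyβ
  -- the set `A` crosses both ends of the cell of `β`
  have hlh : (∃ l ∈ Lo β x, l ∉ A) ∧ ∃ h ∈ A, h ∉ Hi β x := by
    by_cases hH : A ⊆ Hi β x
    · exfalso
      have hl : ∃ l ∈ Lo β x, l ∉ A := by
        by_contra h
        push Not at h
        exact core A (.inr (hA.mono le_sup_left)) hA3 h hA4 hH hA1 hA2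
      obtain ⟨l, hl, hl'⟩ := hl
      obtain ⟨u, hu, hu'⟩ := hA1
      obtain ⟨Y₃, hY3, hY3L, hY3H, huY3⟩ := hFb u (hH hu) (by
        by_contra h
        exact hu' (hLβ u h))
      have hy3 : y ∈ A ∧ y ∈ Y₃ := by
        by_contra h
        exact dich A Y₃ hA hA3 hA4 hY3 hY3L hY3H ⟨u, hu, huY3⟩ ⟨l, hY3L hl, hl'⟩ y hyW hyL1 hyL2 h
          u hu' (hA4 hu) (hH hu) (.inl hu)
      exact dich A Y₂ hA hA3 hA4 hY2 hY2L hY2H ⟨y, hy3.1, hyY2⟩ ⟨l, hY2L hl, hl'⟩ y hyW hyL1 hyL2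
        (fun h => hyY2 h.2) u hu' (hA4 hu) (hH hu) (.inl hu)
    · obtain ⟨h, hh, hh'⟩ := Set.not_subset.1 hH
      refine ⟨?_, h, hh, hh'⟩
      by_contra hl
      push Not at hl
      obtain ⟨w, hw, hw'⟩ := hA2
      have hwα : w ∉ Lo α x := fun h' => hw' (hA3 h')
      have hwβ : w ∉ Lo β x := fun h' => hw' (hl w h')
      have hxA : x ∈ A := by
        by_contra hx
        exact dich A Y₁ hA hA3 hA4 hY1 hY1L hY1H ⟨h, hh, fun h' => hh' (hY1H h')⟩ ⟨x, hxY1, hx⟩
          w hw hwα hwβ (fun h' => hw' h'.1) x hxW hxα hxβ (.inr hxY1)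
      obtain ⟨Y₃, hY3, hY3L, hY3H, hwY3⟩ := hFa w (hMβ w hw) (by
        by_contra h'
        exact hwβ h')
      exact dich A Y₃ hA hA3 hA4 hY3 hY3L hY3H ⟨h, hh, fun h' => hh' (hY3H h')⟩ ⟨w, hwY3, hw'⟩
        w hw hwα hwβ (fun h' => hw' h'.1) x hxW hxα hxβ (.inl hxA)
  obtain ⟨⟨l, hl, hlA⟩, ⟨h, hh, hhH⟩⟩ := hlh
  have hhW : h ∉ W := fun h' => hhH (hMβ h h')
  -- cuts of `b` contain `y`
  have claim1 : ∀ B, Cut b B → Lo β x ⊆ B → B ⊆ Hi β x → y ∈ B := by
    intro B hB hB1 hB2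
    set A' : Set V := ⋂₀ {X | Cut (a ⊔ b) X ∧ h ∈ X ∧ Lo α x ⊆ X} with hA'
    have hA'1 : Cut (a ⊔ b) A' := Cut.sInter fun X hX => hX.1
    have hA'2 : A' ⊆ A := Set.sInter_subset_of_mem ⟨hA.mono le_sup_left, hh, hA3⟩
    have hA'3 : Lo α x ⊆ A' := Set.subset_sInter fun X hX => hX.2.2
    have hA'4 : h ∈ A' := Set.mem_sInter.2 fun X hX => hX.2.1
    have hA'5 : Cut a A' := hs A' hA'1 (cut_cell hA'3 (hA'2.trans hA4))
    have hyA' : y ∈ A' ∧ y ∈ Y₁ := by
      by_contra hn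
      exact dich A' Y₁ hA'5 hA'3 (hA'2.trans hA4) hY1 hY1L hY1H
        ⟨h, hA'4, fun h' => hhH (hY1H h')⟩ ⟨l, hY1L hl, fun h' => hlA (hA'2 h')⟩ y hyW hyL1 hyL2 hn
        x hxW hxα hxβ (.inr hxY1)
    have hX : Cut (a ⊔ b) ((A' ∩ B) ∪ (Lo α x ∪ {h})) := by
      refine hA'1.between (hB.mono le_sup_right) hA'4 (fun h' => hhH (hB2 h')) (hB1 hl)
        (fun h' => hlA (hA'2 h')) (fun w h1 h2 => .inl ⟨h1, h2⟩) ?_
      rintro w (h1 | h1 | h1)
      · exact .inl h1.1
      · exact .inl (hA'3 h1)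
      · rw [Set.mem_singleton_iff] at h1
        exact .inl (h1 ▸ hA'4)
    have hy' : y ∈ (A' ∩ B) ∪ (Lo α x ∪ {h}) :=
      (Set.sInter_subset_of_mem (S := {X | Cut (a ⊔ b) X ∧ h ∈ X ∧ Lo α x ⊆ X})
        ⟨hX, .inr (.inr rfl), fun w hw => .inr (.inl hw)⟩) hyA'.1
    rcases hy' with h1 | h1 | h1
    · exact h1.2
    · exact absurd h1 hyL1
    · rw [Set.mem_singleton_iff] at h1
      exact absurd (h1 ▸ hyW) hhW
  -- cuts of `b` do not contain `x`
  have claim2 : ∀ B, Cut b B → Lo β x ⊆ B → B ⊆ Hi β x → x ∉ B := by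
    intro B hB hB1 hB2 hxB
    set A' : Set V := ⋃₀ {X | Cut (a ⊔ b) X ∧ l ∉ X ∧ X ⊆ Hi α x} with hA'
    have hA'1 : Cut (a ⊔ b) A' := Cut.sUnion fun X hX => hX.1
    have hA'2 : A ⊆ A' := Set.subset_sUnion_of_mem ⟨hA.mono le_sup_left, hlA, hA4⟩
    have hA'3 : A' ⊆ Hi α x := Set.sUnion_subset fun X hX => hX.2.2
    have hA'4 : l ∉ A' := by
      rintro ⟨X, hX, hlX⟩
      exact hX.2.1 hlX
    have hA'5 : Cut a A' := hs A' hA'1 (cut_cell (hA3.trans hA'2) hA'3)
    have hxA' : x ∉ A' := by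
      intro hn
      exact dich A' Y₂ hA'5 (hA3.trans hA'2) hA'3 hY2 hY2L hY2H
        ⟨h, hA'2 hh, fun h' => hhH (hY2H h')⟩ ⟨l, hY2L hl, hA'4⟩ y hyW hyL1 hyL2
        (fun h' => hyY2 h'.2) x hxW hxα hxβ (.inl hn)
    have hX : Cut (a ⊔ b) ((A' ∪ B) ∩ (Hi α x \ {l})) := by
      refine hA'1.between (hB.mono le_sup_right) (hA'2 hh) (fun h' => hhH (hB2 h')) (hB1 hl) hA'4
        (fun w h1 h2 => ⟨.inl h1, hA'3 h1, fun h3 => hA'4 (by
          rw [Set.mem_singleton_iff] at h3; exact h3 ▸ h1)⟩) (fun w hw => hw.1)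
    have hx' : x ∈ (A' ∪ B) ∩ (Hi α x \ {l}) := by
      refine ⟨.inr hxB, hxα, fun h3 => ?_⟩
      rw [Set.mem_singleton_iff] at h3
      exact hxW (h3 ▸ hLβ l hl)
    refine hxA' ⟨(A' ∪ B) ∩ (Hi α x \ {l}), ⟨hX, fun h3 => h3.2.2 rfl, fun w hw => hw.2.1⟩, hx'⟩
  have hc1 : Cut c Y₁ := hY1.resolve_left fun hb => claim2 Y₁ hb hY1L hY1H hxY1
  have hc2 : Cut c Y₂ := hY2.resolve_left fun hb => hyY2 (claim1 Y₂ hb hY2L hY2H)
  have hX1 : Cut (a ⊔ c) ((A ∩ Y₂) ∪ (Lo α x ∪ {h})) := by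
    refine (hA.mono le_sup_left).between (hc2.mono le_sup_right) hh (fun h' => hhH (hY2H h'))
      (hY2L hl) hlA (fun w h1 h2 => .inl ⟨h1, h2⟩) ?_
    rintro w (h1 | h1 | h1)
    · exact .inl h1.1
    · exact .inl (hA3 h1)
    · rw [Set.mem_singleton_iff] at h1
      exact .inl (h1 ▸ hh)
  have hX1A : (A ∩ Y₂) ∪ (Lo α x ∪ {h}) ⊆ A := by
    rintro w (h1 | h1 | h1)
    · exact h1.1
    · exact hA3 h1
    · rw [Set.mem_singleton_iff] at h1
      exact h1 ▸ hh
  have hyX1 : y ∉ (A ∩ Y₂) ∪ (Lo α x ∪ {h}) := by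
    rintro (h1 | h1 | h1)
    · exact hyY2 h1.2
    · exact hyL1 h1
    · rw [Set.mem_singleton_iff] at h1
      exact hhW (h1 ▸ hyW)
  set X₁ := (A ∩ Y₂) ∪ (Lo α x ∪ {h}) with hX₁
  have hX2 : Cut (a ⊔ c) ((X₁ ∩ Y₁) ∪ (Lo α x ∪ Lo β x) ∪ {x}) := by
    refine hX1.between (hc1.mono le_sup_right) (.inr (.inr rfl)) (fun h' => hhH (hY1H h'))
      (hY1L hl) (fun h' => hlA (hX1A h')) (fun w h1 h2 => .inl (.inl ⟨h1, h2⟩)) ?_
    rintro w ((h1 | h1 | h1) | h1)
    · exact .inl h1.1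
    · exact .inl (.inr (.inl h1))
    · exact .inr (hY1L h1)
    · rw [Set.mem_singleton_iff] at h1
      exact .inr (h1 ▸ hxY1)
  refine core _ (.inr hX2) (fun w hw => .inl (.inr (.inl hw))) (fun w hw => .inl (.inr (.inr hw)))
    ?_ ?_ ⟨x, .inr rfl, hxW⟩ ⟨y, hyW, ?_⟩
  · rintro w ((h1 | h1 | h1) | h1)
    · exact hA4 (hX1A h1.1)
    · exact hMα w (hLα w h1)
    · exact hMα w (hLβ w h1)
    · rw [Set.mem_singleton_iff] at h1
      exact h1 ▸ hxα
  · rintro w ((h1 | h1 | h1) | h1)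
    · exact hY1H h1.2
    · exact hMβ w (hLα w h1)
    · exact hMβ w (hLβ w h1)
    · rw [Set.mem_singleton_iff] at h1
      exact h1 ▸ hxβ
  · rintro ((h1 | h1 | h1) | h1)
    · exact hyX1 h1.1
    · exact hyL1 h1
    · exact hyL2 h1
    · rw [Set.mem_singleton_iff] at h1
      exact hxW (h1 ▸ hyW)

end TypeP

section TypeM

/-- A cut of a join which is not a cut of one of the parts touches a full block. -/
theorem exists_cell [Finite V] {x y : Bip V} {D : Set V} (hD : Cut (x ⊔ y) D) (hx : ¬ Cut x D)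
    (hy : ¬ Cut y D) : ∃ g, (x ⊔ y).rel g g ∧ Lo (x ⊔ y) g ⊆ D ∧ D ⊆ Hi (x ⊔ y) g := by
  set z := x ⊔ y with hz
  by_contra hcon
  push Not at hcon
  have hne : (∃ m, m ∈ D) ∧ ∃ n, n ∉ D := by
    unfold Cut at hx
    push Not at hx
    obtain ⟨m, hm, n, hn, -⟩ := hx
    exact ⟨⟨m, hm⟩, n, hn⟩
  have claim1 : ∃ m ∈ D, ∀ v ∈ D, ¬ z.rel m v := by
    by_contra hn
    push Not at hn
    obtain ⟨m, hm, hmin⟩ := Set.exists_min_image D (fun m => Set.ncard {v | v ∈ D ∧ z.rel m v})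
      (Set.toFinite D) hne.1
    obtain ⟨v, hv, hmv⟩ := hn m hm
    have hS : ∀ u ∈ D, z.rel m u → {w | w ∈ D ∧ z.rel u w} = {w | w ∈ D ∧ z.rel m w} := by
      intro u hu hmu
      exact Set.eq_of_subset_of_ncard_le (fun w hw => ⟨hw.1, z.trans _ _ _ hmu hw.2⟩) (hmin u hu)
        (Set.toFinite _)
    have hvv : z.rel v v := by
      have h1 : v ∈ {w | w ∈ D ∧ z.rel v w} := by
        rw [hS v hv hmv]
        exact ⟨hv, hmv⟩
      exact h1.2
    refine hcon v hvv (fun w hw => ?_) (fun u hu => ?_)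
    · by_contra hwD
      exact hw (hD v hv w hwD)
    · rcases z.cotrans hvv u with h1 | h1
      · have h2 : v ∈ {w | w ∈ D ∧ z.rel u w} := by
          rw [hS u hu (z.trans _ _ _ hmv h1)]
          exact ⟨hv, hmv⟩
        exact h2.2
      · exact h1
  have claim2 : ∃ n, n ∉ D ∧ ∀ v, v ∉ D → ¬ z.rel v n := by
    by_contra hn
    push Not at hn
    obtain ⟨m, hm, hmin⟩ := Set.exists_min_image Dᶜ (fun m => Set.ncard {v | v ∉ D ∧ z.rel v m})
      (Set.toFinite _) hne.2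
    obtain ⟨v, hv, hmv⟩ := hn m hm
    have hS : ∀ u, u ∉ D → z.rel u m → {w | w ∉ D ∧ z.rel w u} = {w | w ∉ D ∧ z.rel w m} := by
      intro u hu hmu
      exact Set.eq_of_subset_of_ncard_le (fun w hw => ⟨hw.1, z.trans _ _ _ hw.2 hmu⟩) (hmin u hu)
        (Set.toFinite _)
    have hvv : z.rel v v := by
      have h1 : v ∈ {w | w ∉ D ∧ z.rel w v} := by
        rw [hS v hv hmv]
        exact ⟨hv, hmv⟩
      exact h1.2
    refine hcon v hvv (fun w hw => ?_) (fun u hu => hD u hu v hv)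
    by_contra hwD
    rcases z.cotrans hvv w with h1 | h1
    · exact hw h1
    · have h2 : v ∈ {u | u ∉ D ∧ z.rel u w} := by
        rw [hS w hwD (z.trans _ _ _ h1 hmv)]
        exact ⟨hv, hmv⟩
      exact hw h2.2
  obtain ⟨m, hm, hm'⟩ := claim1
  obtain ⟨n, hn, hn'⟩ := claim2
  have hmn : Relation.TransGen (fun i j => x.rel i j ∨ y.rel i j) m n := hD m hm n hn
  have hstep : x.rel m n ∨ y.rel m n := by
    obtain ⟨w, hw, hwn⟩ := Relation.TransGen.head'_iff.1 hmn
    have hwD : w ∉ D := fun h => hm' w h (.single hw)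
    rcases Relation.reflTransGen_iff_eq_or_transGen.1 hwn with h1 | h1
    · exact h1 ▸ hw
    · exact absurd h1 (hn' w hwD)
  have key : ∀ t : Bip V, t ≤ z → t.rel m n → Cut t D := by
    intro t ht hmn u hu v hv
    have h1 : t.rel u n := (t.cotrans hmn u).resolve_left fun h => hm' u hu (ht _ _ h)
    exact (t.cotrans h1 v).resolve_right fun h => hn' v hv (ht _ _ h)
  rcases hstep with h | h
  · exact hx (key x le_sup_left h)
  · exact hy (key y le_sup_right h)

/-- Second case: the set `D` separates two parts of an empty block of `d`. -/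
theorem typeM [Finite V] {a b c d : Bip V}
    (hs : ∀ X, Cut (a ⊔ b) X → Cut (a ⊔ d) X → Cut a X)
    (hq : ∀ X, Cut (a ⊔ c) X → Cut (b ⊔ c) X → Cut c X) (hdβ : d ≤ b ⊔ c) {D L M : Set V} {x y : V}
    (hKc : ∀ X, L ⊆ X → X ⊆ M → Ker c X) (hKd : ∀ X, L ⊆ X → X ⊆ M → Ker d X)
    (hLD : L ⊆ D) (hDM : D ⊆ M) (hxD : x ∈ D) (hxL : x ∉ L) (hyM : y ∈ M) (hyD : y ∉ D)
    (hDα : Cut (a ⊔ d) D) (hDβ : Cut (b ⊔ c) D)
    (hiso1 : ∀ v, v ∉ D → Cut (a ⊔ d) (D ∪ {v}) → Cut (b ⊔ c) (D ∪ {v}) → False)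
    (hiso2 : ∀ v ∈ D, Cut (a ⊔ d) (D \ {v}) → Cut (b ⊔ c) (D \ {v}) → False)
    (htα : ∀ g, (a ⊔ d).rel g g → ∃ g', g' ≠ g ∧ (a ⊔ d).rel g g' ∧ (a ⊔ d).rel g' g)
    (htβ : ∀ g, (b ⊔ c).rel g g → ∃ g', g' ≠ g ∧ (b ⊔ c).rel g g' ∧ (b ⊔ c).rel g' g) :
    False := by
  have fact0 : ∀ t : Bip V, (∀ X, L ⊆ X → X ⊆ M → Ker t X) → ∀ C, Cut t C → C ⊆ L ∨ M ⊆ C := by
    intro t ht C hC
    by_contra h
    push Not at h
    obtain ⟨⟨u, hu, hu'⟩, ⟨v, hv, hv'⟩⟩ :=
      And.intro (Set.not_subset.1 h.1) (Set.not_subset.1 h.2)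
    have h1 : Ker t (L ∪ {v}) := ht _ Set.subset_union_left (by
      rintro w (hw | hw)
      · exact hDM (hLD hw)
      · rw [Set.mem_singleton_iff] at hw
        exact hw ▸ hv)
    rcases hC.ker h1 with h2 | h2
    · rcases h2 hu with h3 | h3
      · exact hu' h3
      · rw [Set.mem_singleton_iff] at h3
        exact hv' (h3 ▸ hu)
    · exact hv' (h2 (.inr rfl))
  have fc := fact0 c hKc
  have fd := fact0 d hKd
  have ncD : ¬ Cut c D := fun h => by
    rcases fc D h with h1 | h1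
    · exact hxL (h1 hxD)
    · exact hyD (h1 hyM)
  have ndD : ¬ Cut d D := fun h => by
    rcases fd D h with h1 | h1
    · exact hxL (h1 hxD)
    · exact hyD (h1 hyM)
  have nqD : ¬ Cut (a ⊔ c) D := fun h => ncD (hq D h hDβ)
  have naD : ¬ Cut a D := fun h => nqD (h.mono le_sup_left)
  have nsD : ¬ Cut (a ⊔ b) D := fun h => naD (hs D h hDα)
  have nbD : ¬ Cut b D := fun h => nsD (h.mono le_sup_right)
  obtain ⟨ga, hga, hLα, hHα⟩ := exists_cell hDα naD ndD
  obtain ⟨gb, hgb, hLβ, hHβ⟩ := exists_cell hDβ nbD ncD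
  set α := a ⊔ d with hα
  set β := b ⊔ c with hβ
  have hDL : ∀ v ∈ D, v ∈ Lo α ga ∨ v ∈ Lo β gb := by
    intro v hv
    by_contra h
    push Not at h
    refine hiso2 v hv (cut_cell (fun w hw => ⟨hLα hw, fun h' => ?_⟩)
      (Set.sdiff_subset.trans hHα)) (cut_cell (fun w hw => ⟨hLβ hw, fun h' => ?_⟩)
      (Set.sdiff_subset.trans hHβ))
    · rw [Set.mem_singleton_iff] at h'
      exact h.1 (h' ▸ hw)
    · rw [Set.mem_singleton_iff] at h'
      exact h.2 (h' ▸ hw)
  have hDH : ∀ v, v ∈ Hi α ga → v ∈ Hi β gb → v ∈ D := by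
    intro v hv1 hv2
    by_contra h
    refine hiso1 v h (cut_cell (hLα.trans Set.subset_union_left) ?_)
      (cut_cell (hLβ.trans Set.subset_union_left) ?_)
    · rintro w (hw | hw)
      · exact hHα hw
      · rw [Set.mem_singleton_iff] at hw
        exact hw ▸ hv1
    · rintro w (hw | hw)
      · exact hHβ hw
      · rw [Set.mem_singleton_iff] at hw
        exact hw ▸ hv2
  obtain ⟨ga', hga1, hga2, hga3⟩ := htα ga hga
  obtain ⟨gb', hgb1, hgb2, hgb3⟩ := htβ gb hgb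
  -- a cut of `a` in the cell of `α` lies outside the cell of `β`
  have hcomp : ∀ X, Cut a X → Lo α ga ⊆ X → X ⊆ Hi α ga → ∀ Y, (Cut b Y ∨ Cut c Y) →
      Lo β gb ⊆ Y → Y ⊆ Hi β gb → (∃ u ∈ X, u ∉ Y) → (∃ v ∈ Y, v ∉ X) → False := by
    rintro X hX hX1 hX2 Y hY hY1 hY2 ⟨u, hu, hu'⟩ ⟨v, hv, hv'⟩
    have key : ∀ t : Bip V, Cut t X → Cut t Y → Cut t D := fun t h1 h2 =>
      h1.between h2 hu hu' hv hv' (fun w h3 h4 => hDH w (hX2 h3) (hY2 h4))
        (fun w hw => (hDL w hw).imp (fun h => hX1 h) (fun h => hY1 h))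
    rcases hY with hY | hY
    · exact nsD (key _ (hX.mono le_sup_left) (hY.mono le_sup_right))
    · exact nqD (key _ (hX.mono le_sup_left) (hY.mono le_sup_right))
  have hout : ∀ X, Cut a X → Lo α ga ⊆ X → X ⊆ Hi α ga → X ⊆ Lo β gb ∨ Hi β gb ⊆ X := by
    intro X hX hX1 hX2
    by_contra h
    push Not at h
    obtain ⟨⟨u, hu, hu'⟩, ⟨v, hv, hv'⟩⟩ :=
      And.intro (Set.not_subset.1 h.1) (Set.not_subset.1 h.2)
    have hu2 : β.rel gb u := by
      by_contra h'
      exact hu' h'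
    by_cases h1 : ∃ g ∈ X, β.rel g gb ∧ β.rel gb g
    · obtain ⟨g1, hg1, hg2, hg3⟩ := h1
      by_cases h2 : ∃ g, g ∉ X ∧ β.rel g gb ∧ β.rel gb g
      · obtain ⟨g4, hg4, hg5, hg6⟩ := h2
        obtain ⟨Y, hY, hY1, hY2, ⟨u', hu', hu''⟩, ⟨v', hv', hv''⟩⟩ :=
          cross (Z := X) hg5 hg6 hg2 hg3 hg4 hg1
        exact hcomp X hX hX1 hX2 Y hY hY1 hY2 ⟨v', hv', hv''⟩ ⟨u', hu', hu''⟩
      · push Not at h2
        have hgX : ∀ g, β.rel g gb → β.rel gb g → g ∈ X := fun g h3 h4 => by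
          by_contra h5
          exact h2 g h5 h3 h4
        have hvL : v ∈ Lo β gb := fun h' => hv' (hgX v hv h')
        obtain ⟨Y, hY, hY1, hY2, -, ⟨v', hv'1, hv'2⟩⟩ :=
          cross (Z := {gb}) hgb3 hgb2 hgb hgb hgb1 rfl
        have h6 : v' = gb := hv'1
        exact hcomp X hX hX1 hX2 Y hY hY1 hY2 ⟨gb, hgX gb hgb hgb, h6 ▸ hv'2⟩ ⟨v, hY1 hvL, hv'⟩
    · push Not at h1
      have huH : u ∉ Hi β gb := fun h' => h1 u hu h' hu2
      obtain ⟨Y, hY, hY1, hY2, ⟨u', hu'1, hu'2⟩, -⟩ :=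
        cross (Z := {gb}ᶜ) hgb hgb hgb3 hgb2 (fun h => h rfl) hgb1
      have h6 : u' = gb := not_not.1 hu'2
      exact hcomp X hX hX1 hX2 Y hY hY1 hY2 ⟨u, hu, fun h' => huH (hY2 h')⟩
        ⟨gb, h6 ▸ hu'1, fun h' => h1 gb h' hgb hgb⟩
  -- the full block of `α` lies on one side of `D`
  have hside : (∀ g, α.rel g ga → α.rel ga g → g ∈ D) ∨ ∀ g, α.rel g ga → α.rel ga g → g ∉ D := by
    by_contra h
    push Not at h
    obtain ⟨⟨g1, hg1, hg2, hg3⟩, ⟨g4, hg4, hg5, hg6⟩⟩ := h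
    obtain ⟨Y, hY, hY1, hY2, ⟨u', hu', hu''⟩, ⟨v', hv', hv''⟩⟩ :=
      cross (Z := D) hg1 hg2 hg4 hg5 hg3 hg6
    rcases hY with hY | hY
    · rcases hout Y hY hY1 hY2 with h1 | h1
      · exact hu'' (hLβ (h1 hu'))
      · exact hv'' (h1 (hHβ hv'))
    · rcases fd Y hY with h1 | h1
      · exact hu'' (hLD (h1 hu'))
      · exact hv'' (h1 (hDM hv'))
  rcases hside with hside | hside
  · -- `D` is the top of the cell of `α`
    have hHD : Hi α ga ⊆ D := by
      intro v hv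
      by_cases h : α.rel ga v
      · exact hside v hv h
      · exact hLα h
    have hX : ∃ X g, Cut a X ∧ Lo α ga ⊆ X ∧ X ⊆ Hi α ga ∧ α.rel g ga ∧ α.rel ga g ∧ g ∈ X := by
      by_contra hn
      push Not at hn
      have hY : ∀ g, α.rel g ga → α.rel ga g → ∃ Y, Cut d Y ∧ Lo α ga ⊆ Y ∧ Y ⊆ Hi α ga ∧
          g ∈ Y := by
        intro g hg1 hg2
        have hne : ∃ g', g' ≠ g ∧ α.rel g' ga ∧ α.rel ga g' := by
          by_cases h : g = ga
          · exact ⟨ga', h ▸ hga1, hga3, hga2⟩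
          · exact ⟨ga, fun h' => h h'.symm, hga, hga⟩
        obtain ⟨g', h1, h2, h3⟩ := hne
        obtain ⟨Y, h4, h5, h6, ⟨u, h7, h8⟩, -⟩ := cross (Z := {g}ᶜ) hg1 hg2 h2 h3
          (fun h => h rfl) h1
        have h9 : u = g := not_not.1 h8
        rcases h4 with h4 | h4
        · exact absurd (h9 ▸ h7) (hn Y g h4 h5 h6 hg1 hg2)
        · exact ⟨Y, h4, h5, h6, h9 ▸ h7⟩
      refine ndD fun u hu v hv => ?_
      by_cases h : α.rel ga u
      · obtain ⟨Y, h1, -, h2, h3⟩ := hY u (hHα hu) h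
        exact h1 u h3 v fun h' => hv (hHD (h2 h'))
      · obtain ⟨Y, h1, h4, h2, h3⟩ := hY ga hga hga
        exact h1 u (h4 h) v fun h' => hv (hHD (h2 h'))
    obtain ⟨X, g, hX1, hX2, hX3, hg1, hg2, hgX⟩ := hX
    have hXβ : X ⊆ Lo β gb := by
      refine (hout X hX1 hX2 hX3).resolve_right fun h => naD ?_
      have h1 : X = D := Set.Subset.antisymm (hX3.trans hHD) (hHβ.trans h)
      exact h1 ▸ hX1
    have hDβL : D ⊆ Lo β gb := fun v hv => (hDL v hv).elim (fun h => hXβ (hX2 h)) id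
    have hDeqβ : Lo β gb = D := Set.Subset.antisymm hLβ hDβL
    have hDeqα : Hi α ga = D := Set.Subset.antisymm hHD hHα
    have kβ : Ker β D := hDeqβ ▸ ker_Lo β gb
    have kα : Ker α D := hDeqα ▸ ker_Hi α ga
    set A : Set V := ⋃₀ {X | Cut a X ∧ X ⊆ D} with hA
    have hA1 : Cut a A := Cut.sUnion fun X hX => hX.1
    have hA2 : A ⊆ D := Set.sUnion_subset fun X hX => hX.2
    have hXA : X ⊆ A := Set.subset_sUnion_of_mem ⟨hX1, hX3.trans hHD⟩
    have hb : ∀ B, Cut b B → B ⊆ A ∨ D ⊆ B := by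
      intro B hB
      refine ((hB.mono le_sup_left).ker kβ).imp_left fun hBD => ?_
      have h1 : Cut (a ⊔ b) (A ∪ B) := (hA1.mono le_sup_left).union (hB.mono le_sup_right)
      have h2 : Cut a (A ∪ B) := hs _ h1 (cut_cell ((hX2.trans hXA).trans Set.subset_union_left)
        ((Set.union_subset hA2 hBD).trans hHα))
      exact Set.subset_union_right.trans (Set.subset_sUnion_of_mem ⟨h2, Set.union_subset hA2 hBD⟩)
    obtain ⟨U, hU, ⟨u, hu, hu'⟩, ⟨w, hw, hw'⟩⟩ := exists_ker_of_not_cut nqD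
    have hAU : A ⊆ U := ((hA1.mono le_sup_left).ker hU).resolve_right fun h => hu' (hA2 (h hu))
    have kbZ : Ker b (U ∩ D) := by
      by_contra hn
      obtain ⟨B, hB, ⟨u1, h1, h1'⟩, ⟨w1, h2, h2'⟩⟩ := exists_cut_of_not_ker hn
      rcases hb B hB with h | h
      · exact h1' ⟨hAU (h h1), hA2 (h h1)⟩
      · exact h2' (h h2.2)
    have kcZ : Ker c (U ∩ D) := (hU.anti le_sup_right).inter (kβ.anti le_sup_right)
    have kaZ : Ker a (U ∩ D) := (hU.anti le_sup_left).inter (kα.anti le_sup_left)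
    have kdZ : Ker d (U ∩ D) := (kbZ.sup kcZ).anti hdβ
    have kαZ : Ker α (U ∩ D) := kaZ.sup kdZ
    have hwα : α.rel ga w := by
      by_contra h
      exact hw' (hAU (hXA (hX2 h)))
    exact kαZ w (fun h => hw' h.1) g ⟨hAU (hXA hgX), hA2 (hXA hgX)⟩
      (α.trans _ _ _ (hHα hw) hg2)
  · -- `D` is the bottom of the cell of `α`
    have hHD : D ⊆ Lo α ga := by
      intro v hv h
      exact hside v (hHα hv) h hv
    have hX : ∃ X g, Cut a X ∧ Lo α ga ⊆ X ∧ X ⊆ Hi α ga ∧ α.rel g ga ∧ α.rel ga g ∧ g ∉ X := by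
      by_contra hn
      push Not at hn
      have hY : ∀ g, α.rel g ga → α.rel ga g → ∃ Y, Cut d Y ∧ Lo α ga ⊆ Y ∧ Y ⊆ Hi α ga ∧
          g ∉ Y := by
        intro g hg1 hg2
        have hne : ∃ g', g' ≠ g ∧ α.rel g' ga ∧ α.rel ga g' := by
          by_cases h : g = ga
          · exact ⟨ga', h ▸ hga1, hga3, hga2⟩
          · exact ⟨ga, fun h' => h h'.symm, hga, hga⟩
        obtain ⟨g', h1, h2, h3⟩ := hne
        obtain ⟨Y, h4, h5, h6, -, v, h7, h8⟩ := cross (Z := {g}) h2 h3 hg1 hg2 h1 rfl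
        have h9 : v = g := h7
        rcases h4 with h4 | h4
        · exact absurd (hn Y g h4 h5 h6 hg1 hg2) (h9 ▸ h8)
        · exact ⟨Y, h4, h5, h6, h9 ▸ h8⟩
      refine ndD fun u hu v hv => ?_
      by_cases h : α.rel v ga
      · obtain ⟨Y, h1, h2, -, h3⟩ := hY v h (by
          by_contra h'
          exact hv (hLα h'))
        exact h1 u (h2 (hHD hu)) v h3
      · obtain ⟨Y, h1, h4, h2, h3⟩ := hY ga hga hga
        exact h1 u (h4 (hHD hu)) v fun h' => h (h2 h')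
    obtain ⟨X, g, hX1, hX2, hX3, hg1, hg2, hgX⟩ := hX
    have hXβ : Hi β gb ⊆ X := by
      refine (hout X hX1 hX2 hX3).resolve_left fun h => naD ?_
      have h1 : X = D := Set.Subset.antisymm (h.trans hLβ) (hHD.trans hX2)
      exact h1 ▸ hX1
    have hDβH : Hi β gb ⊆ D := fun v hv => hDH v (hX3 (hXβ hv)) hv
    have hDeqβ : Hi β gb = D := Set.Subset.antisymm hDβH hHβ
    have hDeqα : Lo α ga = D := Set.Subset.antisymm hLα hHD
    have kβ : Ker β D := hDeqβ ▸ ker_Hi β gb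
    have kα : Ker α D := hDeqα ▸ ker_Lo α ga
    set A : Set V := ⋂₀ {X | Cut a X ∧ D ⊆ X} with hA
    have hA1 : Cut a A := Cut.sInter fun X hX => hX.1
    have hA2 : D ⊆ A := Set.subset_sInter fun X hX => hX.2
    have hXA : A ⊆ X := Set.sInter_subset_of_mem ⟨hX1, hHD.trans hX2⟩
    have hb : ∀ B, Cut b B → B ⊆ D ∨ A ⊆ B := by
      intro B hB
      refine ((hB.mono le_sup_left).ker kβ).imp_right fun hBD => ?_
      have h1 : Cut (a ⊔ b) (A ∩ B) := (hA1.mono le_sup_left).inter (hB.mono le_sup_right)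
      have h2 : Cut a (A ∩ B) := hs _ h1 (cut_cell (hLα.trans (Set.subset_inter hA2 hBD))
        (Set.inter_subset_left.trans (hXA.trans hX3)))
      exact (Set.sInter_subset_of_mem (S := {X | Cut a X ∧ D ⊆ X})
        ⟨h2, Set.subset_inter hA2 hBD⟩).trans Set.inter_subset_right
    obtain ⟨U, hU, ⟨u, hu, hu'⟩, ⟨w, hw, hw'⟩⟩ := exists_ker_of_not_cut nqD
    have hAU : U ⊆ A := ((hA1.mono le_sup_left).ker hU).resolve_left fun h => hw' (h (hA2 hw))
    have kbZ : Ker b (U ∪ D) := by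
      by_contra hn
      obtain ⟨B, hB, ⟨u1, h1, h1'⟩, ⟨w1, h2, h2'⟩⟩ := exists_cut_of_not_ker hn
      rcases hb B hB with h | h
      · exact h1' (.inr (h h1))
      · exact h2' (h (h2.elim (fun h3 => hAU h3) fun h3 => hA2 h3))
    have kcZ : Ker c (U ∪ D) := (hU.anti le_sup_right).union (kβ.anti le_sup_right)
    have kaZ : Ker a (U ∪ D) := (hU.anti le_sup_left).union (kα.anti le_sup_left)
    have kdZ : Ker d (U ∪ D) := (kbZ.sup kcZ).anti hdβ
    have kαZ : Ker α (U ∪ D) := kaZ.sup kdZ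
    have hgZ : g ∉ U ∪ D := fun h => hgX (hXA (h.elim (fun h3 => hAU h3) fun h3 => hA2 h3))
    have huα : α.rel u ga := hX3 (hXA (hAU hu))
    have huα' : α.rel ga u := by
      by_contra h
      exact hu' (hLα h)
    exact kαZ g hgZ u (.inl hu) (α.trans _ _ _ hg1 huα')

end TypeM

section Reduced

/-- Every vertex has a twin. -/
def Twinned (z : Bip V) : Prop :=
  ∀ v, ∃ v', v' ≠ v ∧ (∀ u, z.rel u v ↔ z.rel u v') ∧ ∀ u, z.rel v u ↔ z.rel v' u

theorem Twinned.loop {z : Bip V} (h : Twinned z) (g : V) (hg : z.rel g g) :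
    ∃ g', g' ≠ g ∧ z.rel g g' ∧ z.rel g' g := by
  obtain ⟨g', h1, h2, h3⟩ := h g
  exact ⟨g', h1, (h2 g).1 hg, (h3 g).1 hg⟩

/-- The reduced form, with twins. -/
theorem reduced_twinned [Finite V] (a b c d : Bip V) (ha : (a ⊔ b) ⊓ (a ⊔ d) ≤ a)
    (hc : (a ⊔ c) ⊓ (b ⊔ c) ≤ c) (hcd : c ≤ d) (hd : d ≤ b ⊔ c) (tα : Twinned (a ⊔ d))
    (tβ : Twinned (b ⊔ c)) (te : Twinned ((a ⊔ d) ⊓ (b ⊔ c))) :
    (a ⊔ d) ⊓ (b ⊔ c) ≤ d := by
  set e := (a ⊔ d) ⊓ (b ⊔ c) with he
  have hde : d ≤ e := le_inf le_sup_right hd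
  have heα : e ≤ a ⊔ d := inf_le_left
  have heβ : e ≤ b ⊔ c := inf_le_right
  have hs : ∀ X, Cut (a ⊔ b) X → Cut (a ⊔ d) X → Cut a X := fun X h1 h2 => (h1.inf h2).mono ha
  have hq : ∀ X, Cut (a ⊔ c) X → Cut (b ⊔ c) X → Cut c X := fun X h1 h2 => (h1.inf h2).mono hc
  by_contra hcon
  by_cases hA : ∃ x y, x ≠ y ∧ e.rel x y ∧ e.rel y x ∧ ¬ d.rel x y
  · obtain ⟨x, y, hne, hxy, hyx, hd'⟩ := hA
    have hxx : e.rel x x := e.trans _ _ _ hxy hyx
    have k1 : Ker d {w | w ≠ x ∧ ¬ d.rel x w} := by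
      intro u hu v hv huv
      simp only [Set.mem_ofPred_eq, not_and, not_not] at hu
      by_cases hux : u = x
      · exact hv.2 (hux ▸ huv)
      · exact hv.2 (d.trans _ _ _ (hu hux) huv)
    have k2 : Ker d ({w | w ≠ x ∧ ¬ d.rel x w} ∩ Hi e x ∪ Lo e x) :=
      (k1.inter ((ker_Hi e x).anti hde)).union ((ker_Lo e x).anti hde)
    have hxW : x ∉ {w | w ≠ x ∧ ¬ d.rel x w} ∩ Hi e x ∪ Lo e x := by
      rintro (h | h)
      · exact h.1.1 rfl
      · exact h hxx
    have hyW : y ∈ {w | w ≠ x ∧ ¬ d.rel x w} ∩ Hi e x ∪ Lo e x := .inl ⟨⟨hne.symm, hd'⟩, hyx⟩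
    refine typeP (α := a ⊔ d) le_sup_left hs hq (k2.anti hcd) ?_ (heα _ _ hxx) (heβ _ _ hxx)
      ?_ ?_ hxW hyW (heα _ _ hxy) (heβ _ _ hxy)
    · exact fun h => h.sup k2 x hxW y hyW (heα _ _ hxy)
    · intro v hv
      have h1 : e.rel v x := hv.elim (fun h => h.2) fun h => Lo_subset_Hi hxx h
      exact ⟨heα _ _ h1, heβ _ _ h1⟩
    · intro v hv
      have h1 : e.rel x v := by
        by_contra h
        exact hv (.inr h)
      exact ⟨heα _ _ h1, heβ _ _ h1⟩
  · push Not at hA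
    obtain ⟨x, y, hxy, hdxy⟩ : ∃ x y, e.rel x y ∧ ¬ d.rel x y := by
      by_contra h
      push Not at h
      exact hcon h
    have hloop : ∀ v, e.rel v v → d.rel v v := by
      intro v hv
      obtain ⟨v', h1, h2, h3⟩ := te.loop v hv
      exact d.trans _ _ _ (hA v v' h1.symm h2 h3) (hA v' v h1 h3 h2)
    have hne : x ≠ y := fun h => hdxy (h ▸ hloop x (by rw [← h] at hxy; exact hxy))
    have heyx : ¬ e.rel y x := fun h => hdxy (hA x y hne hxy h)
    have hdyx : ¬ d.rel y x := fun h => heyx (hde _ _ h)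
    have hdxx : ¬ d.rel x x := fun h => (d.cotrans h y).elim hdxy hdyx
    have hexx : ¬ e.rel x x := fun h => hdxx (hloop x h)
    refine typeM (a := a) (b := b) (c := c) (d := d) (D := {v | ¬ e.rel x v})
      (L := {v | d.rel v x}) (M := {v | ¬ d.rel x v}) (x := x) (y := y) hs hq hd ?_ ?_ ?_ ?_
      hexx hdxx hdxy (fun h => h hxy) ?_ ?_ ?_ ?_ tα.loop tβ.loop
    · intro X h1 h2 u hu v hv h
      have h3 : ¬ d.rel u x := fun h => hu (h1 h)
      exact (d.cotrans (hcd _ _ h) x).elim h3 (h2 hv)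
    · intro X h1 h2 u hu v hv h
      have h3 : ¬ d.rel u x := fun h => hu (h1 h)
      exact (d.cotrans h x).elim h3 (h2 hv)
    · exact fun v hv h => hexx (e.trans _ _ _ h (hde _ _ hv))
    · exact fun v hv h => hv (hde _ _ h)
    · intro u hu v hv
      simp only [Set.mem_ofPred_eq, not_not] at hu hv
      exact heα _ _ ((e.cotrans hv u).resolve_left hu)
    · intro u hu v hv
      simp only [Set.mem_ofPred_eq, not_not] at hu hv
      exact heβ _ _ ((e.cotrans hv u).resolve_left hu)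
    · intro v hv h1 h2
      have h3 : Cut e ({v | ¬ e.rel x v} ∪ {v}) := h1.inf h2
      simp only [Set.mem_ofPred_eq, not_not] at hv
      obtain ⟨v', h4, h5, h6⟩ := te v
      have h7 : e.rel v v' := by
        refine h3 v (.inr rfl) v' ?_
        rintro (h | h)
        · exact h ((h5 x).1 hv)
        · exact h4 h
      have h8 : e.rel v v := (h5 v).2 h7
      have h9 : d.rel v v := hloop v h8
      have h10 : d.rel x v := by
        by_contra h
        rcases d.cotrans h9 x with h11 | h11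
        · exact hexx (e.trans _ _ _ hv (hde _ _ h11))
        · exact h h11
      have h11 : d.rel y v := (d.cotrans h10 y).resolve_left hdxy
      have hvy : v ≠ y := fun h => hdxy (h ▸ h10)
      have h12 : e.rel v y := by
        refine h3 v (.inr rfl) y ?_
        rintro (h | h)
        · exact h hxy
        · exact hvy h.symm
      exact hdxy (d.trans _ _ _ h10 (hA v y hvy h12 (hde _ _ h11)))
    · intro v hv h1 h2
      have h3 : Cut e ({v | ¬ e.rel x v} \ {v}) := h1.inf h2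
      simp only [Set.mem_ofPred_eq] at hv
      by_cases hxv : x = v
      · obtain ⟨v', h4, h5, h6⟩ := te v
        have h7 : e.rel v' v := by
          refine h3 v' ⟨fun h => hv ((h5 x).2 h), h4⟩ v fun h => h.2 rfl
        exact hexx (by rw [hxv]; exact (h6 v).2 h7)
      · exact hv (h3 x ⟨hexx, hxv⟩ v fun h => h.2 rfl)

/-- Doubling the vertices. -/
def dbl (z : Bip V) : Bip (V × Bool) where
  rel p q := z.rel p.1 q.1
  trans _ _ _ h h' := z.trans _ _ _ h h'
  compl_trans _ _ _ h h' := z.compl_trans _ _ _ h h'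

theorem dbl_le {z w : Bip V} : dbl z ≤ dbl w ↔ z ≤ w :=
  ⟨fun h i j hij => h (i, false) (j, false) hij, fun h _ _ hij => h _ _ hij⟩

theorem transGen_dbl (r : V → V → Prop) (p q : V × Bool) :
    Relation.TransGen (fun p q : V × Bool => r p.1 q.1) p q ↔ Relation.TransGen r p.1 q.1 := by
  constructor
  · intro h
    induction h with
    | single hs => exact .single hs
    | tail _ hs ih => exact ih.tail hs
  · intro h
    have key : ∀ v, Relation.TransGen r p.1 v → ∀ i : Bool,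
        Relation.TransGen (fun p q : V × Bool => r p.1 q.1) p (v, i) := by
      intro v h
      induction h with
      | single hs => exact fun i => .single hs
      | tail _ hs ih => exact fun i => (ih false).tail hs
    exact key q.1 h q.2

theorem dbl_sup (z w : Bip V) : dbl (z ⊔ w) = dbl z ⊔ dbl w := by
  ext p q
  exact (transGen_dbl (fun i j => z.rel i j ∨ w.rel i j) p q).symm

theorem dbl_inf (z w : Bip V) : dbl (z ⊓ w) = dbl z ⊓ dbl w := by
  ext p q
  exact not_congr (transGen_dbl (fun i j => z.perp.rel i j ∨ w.perp.rel i j) p q).symm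

theorem twinned_dbl (z : Bip V) : Twinned (dbl z) := by
  rintro ⟨v, i⟩
  refine ⟨(v, !i), ?_, fun u => Iff.rfl, fun u => Iff.rfl⟩
  cases i <;> simp

/-- The reduced form. -/
theorem reduced [Finite V] (a b c d : Bip V) (ha : (a ⊔ b) ⊓ (a ⊔ d) ≤ a)
    (hc : (a ⊔ c) ⊓ (b ⊔ c) ≤ c) (hcd : c ≤ d) (hd : d ≤ b ⊔ c) :
    (a ⊔ d) ⊓ (b ⊔ c) ≤ d := by
  have key := reduced_twinned (dbl a) (dbl b) (dbl c) (dbl d)
    (by simpa only [← dbl_sup, ← dbl_inf, dbl_le] using ha)
    (by simpa only [← dbl_sup, ← dbl_inf, dbl_le] using hc) (dbl_le.2 hcd)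
    (by simpa only [← dbl_sup, dbl_le] using hd)
    (by rw [← dbl_sup]; exact twinned_dbl _) (by rw [← dbl_sup]; exact twinned_dbl _)
    (by rw [← dbl_sup, ← dbl_sup, ← dbl_inf]; exact twinned_dbl _)
  simpa only [← dbl_sup, ← dbl_inf, dbl_le] using key

/-- From the reduced form to the identity, in any lattice. -/
theorem identity_of_reduced {L : Type*} [Lattice L]
    (H : ∀ a b c d : L, (a ⊔ b) ⊓ (a ⊔ d) ≤ a → (a ⊔ c) ⊓ (b ⊔ c) ≤ c → c ≤ d → d ≤ b ⊔ c →
      (a ⊔ d) ⊓ (b ⊔ c) ≤ d) (a b c d : L) (hcd : c ≤ d) (hd : d ≤ b ⊔ c) :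
    (a ⊔ d) ⊓ (b ⊔ c) = d ⊔ (b ⊔ c) ⊓ (c ⊔ (a ⊔ b) ⊓ (a ⊔ d)) := by
  set a' := (a ⊔ b) ⊓ (a ⊔ d) with ha'
  set c' := (b ⊔ c) ⊓ (c ⊔ a') with hc'
  have h1 : a ≤ a' := le_inf le_sup_left le_sup_left
  have h2 : c ≤ c' := le_inf le_sup_right le_sup_left
  have h3 : c ⊔ a' ≤ a ⊔ d := sup_le (hcd.trans le_sup_right) inf_le_right
  have h4 : c' ≤ a ⊔ d := inf_le_right.trans h3
  have e1 : a' ⊔ b = a ⊔ b :=
    le_antisymm (sup_le inf_le_left le_sup_right) (sup_le_sup_right h1 b)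
  have e2 : a' ⊔ (d ⊔ c') = a ⊔ d :=
    le_antisymm (sup_le inf_le_right (sup_le le_sup_right h4))
      (sup_le (h1.trans le_sup_left) (le_sup_left.trans le_sup_right))
  have e3 : a' ⊔ c' = c ⊔ a' :=
    le_antisymm (sup_le le_sup_right inf_le_right) (sup_le (h2.trans le_sup_right) le_sup_left)
  have e4 : b ⊔ c' = b ⊔ c :=
    le_antisymm (sup_le le_sup_left inf_le_left) (sup_le_sup_left h2 b)
  have h5 : d ⊔ c' ≤ b ⊔ c := sup_le hd inf_le_left
  refine le_antisymm ?_ (le_inf (sup_le le_sup_right h4) h5)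
  have key := H a' b c' (d ⊔ c') (by rw [e1, e2]) (by rw [e3, e4, inf_comm]) le_sup_right
    (by rw [e4]; exact h5)
  rwa [e2, e4] at key

theorem bip_identity [Finite V] (a b c d : Bip V) (hcd : c ≤ d) (hd : d ≤ b ⊔ c) :
    (a ⊔ d) ⊓ (b ⊔ c) = d ⊔ (b ⊔ c) ⊓ (c ⊔ (a ⊔ b) ⊓ (a ⊔ d)) :=
  identity_of_reduced reduced a b c d hcd hd

end Reduced

/-! ## Terms, identities, and lattices in which the identities fail -/

section Terms

/-- Lattice terms in the variables `x₀, x₁, …`. -/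
inductive LatTerm : Type
  | var (i : ℕ)
  | sup (s t : LatTerm)
  | inf (s t : LatTerm)

/-- The value of a lattice term. -/
def LatTerm.eval {L : Type*} [Lattice L] (v : ℕ → L) : LatTerm → L
  | var i => v i
  | sup s t => s.eval v ⊔ t.eval v
  | inf s t => s.eval v ⊓ t.eval v

/-- The lattice identity `s = t` holds in `L`. -/
def LatHolds (L : Type*) [Lattice L] (s t : LatTerm) : Prop := ∀ v : ℕ → L, s.eval v = t.eval v

/-- Ortholattices: bounded lattices with an antitone involution `ᶜ` such that `x` and `xᶜ` are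
complements. -/
class Ortholattice (L : Type*) extends Lattice L, BoundedOrder L, Compl L where
  compl_compl' : ∀ x : L, xᶜᶜ = x
  compl_anti' : ∀ x y : L, x ≤ y → yᶜ ≤ xᶜ
  inf_compl' : ∀ x : L, x ⊓ xᶜ = ⊥
  sup_compl' : ∀ x : L, x ⊔ xᶜ = ⊤

/-- Ortholattice terms in the variables `x₀, x₁, …`. -/
inductive OrthoTerm : Type
  | var (i : ℕ)
  | zero
  | one
  | sup (s t : OrthoTerm)
  | inf (s t : OrthoTerm)
  | compl (s : OrthoTerm)

/-- The value of an ortholattice term. -/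
def OrthoTerm.eval {L : Type*} [Ortholattice L] (v : ℕ → L) : OrthoTerm → L
  | var i => v i
  | zero => ⊥
  | one => ⊤
  | sup s t => s.eval v ⊔ t.eval v
  | inf s t => s.eval v ⊓ t.eval v
  | compl s => (s.eval v)ᶜ

/-- The ortholattice identity `s = t` holds in `L`. -/
def OrthoHolds (L : Type*) [Ortholattice L] (s t : OrthoTerm) : Prop :=
  ∀ v : ℕ → L, s.eval v = t.eval v

/-- The ortholattice of bipartitions of `V`. -/
instance (V : Type*) : Ortholattice (Bip V) where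
  bot := ⟨fun _ _ => False, fun _ _ _ h _ => h, fun _ _ _ _ _ h => h⟩
  top := ⟨fun _ _ => True, fun _ _ _ _ _ => trivial, fun _ _ _ h _ _ => h trivial⟩
  bot_le _ _ _ h := h.elim
  le_top _ _ _ _ := trivial
  compl := Bip.perp
  compl_compl' x := by
    ext i j
    exact not_not
  compl_anti' x y h i j hy hx := hy (h i j hx)
  inf_compl' x := by
    refine le_antisymm (fun i j h => ?_) (fun i j h => h.elim)
    exact (inf_le_right (a := x) (b := x.perp)) i j h ((inf_le_left (a := x) (b := x.perp)) i j h)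
  sup_compl' x := by
    refine le_antisymm (fun _ _ _ => trivial) (fun i j _ => ?_)
    by_cases h : x.rel i j
    · exact .single (.inl h)
    · exact .single (.inr h)

/-- The left side of the identity, with `c` and `d` replaced by `c ∧ d` and `d ∧ (b ∨ (c ∧ d))`,
in the variables `a = x₀`, `b = x₁`, `c = x₂`, `d = x₃`. -/
def lhs : LatTerm :=
  let a := LatTerm.var 0
  let b := LatTerm.var 1
  let c := LatTerm.inf (.var 2) (.var 3)
  let d := LatTerm.inf (.var 3) (.sup b c)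
  .inf (.sup a d) (.sup b c)

/-- The right side of the identity. -/
def rhs : LatTerm :=
  let a := LatTerm.var 0
  let b := LatTerm.var 1
  let c := LatTerm.inf (.var 2) (.var 3)
  let d := LatTerm.inf (.var 3) (.sup b c)
  .sup d (.inf (.sup b c) (.sup c (.inf (.sup a b) (.sup a d))))

/-- A lattice term as an ortholattice term. -/
def LatTerm.toOrtho : LatTerm → OrthoTerm
  | var i => .var i
  | sup s t => .sup s.toOrtho t.toOrtho
  | inf s t => .inf s.toOrtho t.toOrtho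

theorem LatTerm.eval_toOrtho {L : Type*} [Ortholattice L] (v : ℕ → L) (s : LatTerm) :
    s.toOrtho.eval v = s.eval v := by
  induction s with
  | var i => rfl
  | sup s t hs ht => simp only [toOrtho, OrthoTerm.eval, LatTerm.eval, hs, ht]
  | inf s t hs ht => simp only [toOrtho, OrthoTerm.eval, LatTerm.eval, hs, ht]

theorem holds_bip (V : Type*) [Finite V] : LatHolds (Bip V) lhs rhs := by
  intro v
  have h := bip_identity (v 0) (v 1) (v 2 ⊓ v 3) (v 3 ⊓ (v 1 ⊔ v 2 ⊓ v 3))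
    (le_inf inf_le_right le_sup_right) inf_le_right
  exact h

/-- The join table of the lattice `K`. -/
def supTab : List (List ℕ) :=
  [[0, 1, 2, 3, 4, 5, 6, 7, 8, 9, 10], [1, 1, 3, 3, 7, 8, 8, 7, 8, 10, 10],
    [2, 3, 2, 3, 9, 9, 9, 10, 10, 9, 10], [3, 3, 3, 3, 10, 10, 10, 10, 10, 10, 10],
    [4, 7, 9, 10, 4, 5, 6, 7, 8, 9, 10], [5, 8, 9, 10, 5, 5, 6, 8, 8, 9, 10],
    [6, 8, 9, 10, 6, 6, 6, 8, 8, 9, 10], [7, 7, 10, 10, 7, 8, 8, 7, 8, 10, 10],
    [8, 8, 10, 10, 8, 8, 8, 8, 8, 10, 10], [9, 10, 9, 10, 9, 9, 9, 10, 10, 9, 10],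
    [10, 10, 10, 10, 10, 10, 10, 10, 10, 10, 10]]

/-- The meet table of the lattice `K`. -/
def infTab : List (List ℕ) :=
  [[0, 0, 0, 0, 0, 0, 0, 0, 0, 0, 0], [0, 1, 0, 1, 0, 0, 0, 1, 1, 0, 1],
    [0, 0, 2, 2, 0, 0, 0, 0, 0, 2, 2], [0, 1, 2, 3, 0, 0, 0, 1, 1, 2, 3],
    [0, 0, 0, 0, 4, 4, 4, 4, 4, 4, 4], [0, 0, 0, 0, 4, 5, 5, 4, 5, 5, 5],
    [0, 0, 0, 0, 4, 5, 6, 4, 6, 6, 6], [0, 1, 0, 1, 4, 4, 4, 7, 7, 4, 7],
    [0, 1, 0, 1, 4, 5, 6, 7, 8, 6, 8], [0, 0, 2, 2, 4, 5, 6, 4, 6, 9, 9],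
    [0, 1, 2, 3, 4, 5, 6, 7, 8, 9, 10]]

/-- A lattice with eleven elements, in which the identity fails. -/
structure K : Type where
  /-- the number of the element -/
  val : Fin 11
  deriving DecidableEq

instance : Max K := ⟨fun x y => ⟨Fin.ofNat 11 ((supTab.getD x.val []).getD y.val 0)⟩⟩

instance : Min K := ⟨fun x y => ⟨Fin.ofNat 11 ((infTab.getD x.val []).getD y.val 0)⟩⟩

theorem K.forall_iff (P : K → Prop) : (∀ x, P x) ↔ ∀ i : Fin 11, P ⟨i⟩ :=
  ⟨fun h i => h ⟨i⟩, fun h ⟨i⟩ => h i⟩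

instance : Lattice K :=
  Lattice.mk'
    (by simp only [K.forall_iff]; decide +kernel)
    (by simp only [K.forall_iff]; decide +kernel)
    (by simp only [K.forall_iff]; decide +kernel)
    (by simp only [K.forall_iff]; decide +kernel)
    (by simp only [K.forall_iff]; decide +kernel)
    (by simp only [K.forall_iff]; decide +kernel)

/-- The values of the variables in `K`. -/
def kval : ℕ → K := fun i => ⟨Fin.ofNat 11 ([1, 2, 4, 5].getD i 0)⟩

theorem K_fails : lhs.eval kval ≠ rhs.eval kval := by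
  decide +kernel

/-- The disjoint union of a lattice and its dual, with a new bottom and a new top. -/
inductive Glue (L : Type*) : Type _
  | bot
  | top
  | left (x : L)
  | right (x : L)

namespace Glue

variable {L : Type*} [Lattice L]

/-- The order of `Glue L`. -/
def le : Glue L → Glue L → Prop
  | bot, _ => True
  | _, top => True
  | left x, left y => x ≤ y
  | right x, right y => y ≤ x
  | _, _ => False

instance : PartialOrder (Glue L) where
  le := le
  le_refl x := by cases x <;> simp [le]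
  le_trans x y z h h' := by
    change le x y at h
    change le y z at h'
    change le x z
    cases x <;> cases y <;> cases z <;> simp_all [le] <;> exact le_trans (by assumption) (by assumption)
  le_antisymm x y h h' := by
    change le x y at h
    change le y x at h'
    cases x <;> cases y <;> simp_all [le] <;> exact le_antisymm (by assumption) (by assumption)

/-- The join. -/
def join : Glue L → Glue L → Glue L
  | bot, y => y
  | x, bot => x
  | left x, left y => left (x ⊔ y)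
  | right x, right y => right (x ⊓ y)
  | _, _ => top

/-- The meet. -/
def meet : Glue L → Glue L → Glue L
  | top, y => y
  | x, top => x
  | left x, left y => left (x ⊓ y)
  | right x, right y => right (x ⊔ y)
  | _, _ => bot

/-- The orthocomplement. -/
def perp : Glue L → Glue L
  | bot => top
  | top => bot
  | left x => right x
  | right x => left x

theorem le_iff (x y : Glue L) : x ≤ y ↔ le x y := Iff.rfl

instance : Lattice (Glue L) where
  sup := join
  inf := meet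
  le_sup_left x y := by
    rw [le_iff]
    cases x <;> cases y <;> simp [le, join]
  le_sup_right x y := by
    rw [le_iff]
    cases x <;> cases y <;> simp [le, join]
  sup_le x y z h h' := by
    rw [le_iff] at *
    cases x <;> cases y <;> cases z <;> simp_all [le, join]
  inf_le_left x y := by
    rw [le_iff]
    cases x <;> cases y <;> simp [le, meet]
  inf_le_right x y := by
    rw [le_iff]
    cases x <;> cases y <;> simp [le, meet]
  le_inf x y z h h' := by
    rw [le_iff] at *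
    cases x <;> cases y <;> cases z <;> simp_all [le, meet]

instance : Ortholattice (Glue L) where
  bot := bot
  top := top
  bot_le x := by
    rw [le_iff]
    cases x <;> simp [le]
  le_top x := by
    rw [le_iff]
    cases x <;> simp [le]
  compl := perp
  compl_compl' x := by
    cases x <;> rfl
  compl_anti' x y h := by
    rw [le_iff] at *
    change le (perp y) (perp x)
    cases x <;> cases y <;> simp_all [le, perp]
  inf_compl' x := by
    change meet x (perp x) = bot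
    cases x <;> rfl
  sup_compl' x := by
    change join x (perp x) = top
    cases x <;> rfl

theorem eval_left (v : ℕ → L) (s : LatTerm) :
    s.eval (fun i => (left (v i) : Glue L)) = left (s.eval v) := by
  induction s with
  | var i => rfl
  | sup s t hs ht =>
    simp only [LatTerm.eval, hs, ht]
    rfl
  | inf s t hs ht =>
    simp only [LatTerm.eval, hs, ht]
    rfl

end Glue

/-- **Both questions have a positive answer**: some lattice identity and some ortholattice identity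
hold in all `Bip (Fin n)`, but fail in some lattice and in some ortholattice; an explicit
identity, for bipartitions of all finite sets, is given in the third part. -/
theorem result :
    (∃ s t : LatTerm, (∀ n : ℕ, LatHolds (Bip (Fin n)) s t) ∧
      ∃ (L : Type) (_ : Lattice L), ¬ LatHolds L s t) ∧
    (∃ s t : OrthoTerm, (∀ n : ℕ, OrthoHolds (Bip (Fin n)) s t) ∧
      ∃ (L : Type) (_ : Ortholattice L), ¬ OrthoHolds L s t) ∧
    (∀ (V : Type) [Finite V] (a b c d : Bip V), c ≤ d → d ≤ b ⊔ c →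
      (a ⊔ d) ⊓ (b ⊔ c) = d ⊔ (b ⊔ c) ⊓ (c ⊔ (a ⊔ b) ⊓ (a ⊔ d))) := by
  refine ⟨⟨lhs, rhs, fun n => holds_bip (Fin n), K, inferInstance, fun h => K_fails (h kval)⟩,
    ⟨lhs.toOrtho, rhs.toOrtho, fun n v => ?_, Glue K, inferInstance, fun h => K_fails ?_⟩,
    fun V _ a b c d => bip_identity a b c d⟩
  · rw [LatTerm.eval_toOrtho, LatTerm.eval_toOrtho]
    exact holds_bip (Fin n) v
  · have h1 := h fun i => Glue.left (kval i)
    rw [LatTerm.eval_toOrtho, LatTerm.eval_toOrtho] at h1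
    have h2 : (Glue.left (lhs.eval kval) : Glue K) = Glue.left (rhs.eval kval) :=
      (Glue.eval_left kval lhs).symm.trans (h1.trans (Glue.eval_left kval rhs))
    exact Glue.left.inj h2

end Terms

end Pool.Agent.Results.MP_a65550_al.BipIdentities
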